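import Pool.Agent.X197.Mycielski

/-!
# MP_9ec85a_gt, Q1: there is no discrete weak Mycielski set in Euclidean space of any dimension

Idea.  Let `g X = X \ {p}`, `h X = X \ {q}` with `p ≠ q` isolated.  The points of `X` which are at
distance at least `ε` from the rest of `X`, where `ε` is the smaller isolation radius of `p`, `q`, form
a uniformly discrete set `S` with the same properties.  A nonempty positive word in `g`, `h` has no
fixed point (its orbits in `S` would be bounded, hence finite, but it is not surjective on `S`).
Since words of length `N` move points by `O(N)` and `S` has polynomial growth, two different words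
of the same length agree on a finite subset with the same affine span as `S`, hence on `S`.
Cancelling the common prefix, `g u = h v` on `S`; then `p` is the image of `p` or `q` under a
nonempty positive word and so is `q`, which produces a positive word with a fixed point.
-/

open Pool.Agent.X197.Mycielski

namespace Pool.Agent.Results.MP_9ec85a_gt.NoDiscrete

/-- In every dimension: if `p ≠ q` are points of `X` such that `X \ {p}` and `X \ {q}` are congruent
to `X` then `p` or `q` is not isolated in `X`; so every weak Mycielski set has a
point which is not isolated. -/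
theorem result (n : ℕ) (X : Set (EuclideanSpace ℝ (Fin n))) :
    (∀ p ∈ X, ∀ q ∈ X, p ≠ q → Congruent (X \ {p}) X → Congruent (X \ {q}) X →
      ¬ Isolated X p ∨ ¬ Isolated X q) ∧
    (WeakMycielski X → ∃ x ∈ X, ¬ Isolated X x) := by
  have key : ∀ p ∈ X, ∀ q ∈ X, p ≠ q → Congruent (X \ {p}) X → Congruent (X \ {q}) X →
      ¬ Isolated X p ∨ ¬ Isolated X q := fun p hp q hq hpq h1 h2 =>
    not_and_or.1 (not_isolated hp hq hpq h1 h2)
  refine ⟨key, ?_⟩
  rintro ⟨p, hp, q, hq, hpq, h1, h2⟩
  rcases key p hp q hq hpq h1 h2 with h | h
  · exact ⟨p, hp, h⟩
  · exact ⟨q, hq, h⟩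

end Pool.Agent.Results.MP_9ec85a_gt.NoDiscrete
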